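import Pool.Agent.COV.StmtsB

set_option autoImplicit false

/-!
# Row HAD (MP_160b6c_nt, squad COV): addition
-/

namespace Pool.Agent.COV.H40

open Polynomial Pool.Agent.KDT.Z Pool.Agent.COV

theorem had0 (ghi : GhiStmt) (gnl : GnlStmt) (trv : TrvStmt) (hsa : HsaStmt)
    (hemb : EmbStatement) : HadStmt := by
  intro k U _ _ _ f g J _ th cl act Jk q H0 t0 ctx c c' hc hc'
  classical
  have env := ctx.env
  have jk := ctx.jk
  haveI : IsAlgClosed U := env.oc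
  haveI : CharZero k := env.ch
  haveI : CharZero U := charZero_of_injective_algebraMap (algebraMap k U).injective
  obtain ⟨gand, gsh, gneg, ginf⟩ := gnl U g J th cl jk.toJG H0
  have G0 : Gn th H0 fun h => ¬ Tht th (c' + h) :=
    ⟨{c'}, fun h _ hC => hC c' (Finset.mem_singleton_self _)⟩
  obtain ⟨h2, hh2, hT⟩ := (ginf ctx.inf _ G0).nonempty
  obtain ⟨w, hw, hcw⟩ : ∃ w, On g w ∧ c' + h2 = cl w := by
    rcases jk.cover (c' + h2) with h | ⟨z, h⟩ | h
    · exact absurd (Or.inl h) hT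
    · exact absurd (Or.inr ⟨z, h⟩) hT
    · exact h
  have G1 := hsa k U f g J th cl act Jk q H0 t0 ctx
  have G2 := gsh _ h2 hh2 hc'
  have G3 : Gn th H0 fun h' => KDT.Z.Good g cl (cl (emb U t0) + h') w := by
    obtain ⟨C, hC⟩ := ghi U g J th cl jk.toJG (cl (emb U t0)) w hw
    exact ⟨C, fun h _ h3 => hC h h3⟩
  have hinf := ginf ctx.inf _ (gand _ _ G1 (gand _ _ G2 G3))
  have hset : {t : Fin 4 → k | Spc q t ∧ rr (emb U t) w ≠ 0 ∧ ro (emb U t) w ≠ 0 ∧
      VV k q (cmp (g.coeff 4) (emb U t) w)}.Infinite := by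
    intro hfin
    apply hinf
    refine (hfin.image (fun t => cl (emb U t) - cl (emb U t0))).subset ?_
    rintro h ⟨hh, ⟨t, hft, hsp, hct⟩, ⟨y, hy, hvy, hcy⟩, ⟨x, hx, hcx, hr, hro⟩⟩
    have ht : On g (emb U t) := ((hemb k U f g env.gm t t).2.2.2.1).2 hft
    have hxt : x = emb U t := jk.cl_inj x (emb U t) hx ht (hcx.symm.trans hct.symm)
    subst hxt
    refine ⟨t, ⟨hsp, hr, hro, ?_⟩, ?_⟩
    · obtain ⟨ho, hcc⟩ := jk.comp (emb U t) w hx hw hr hro
      have e : cmp (g.coeff 4) (emb U t) w = y := by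
        refine jk.cl_inj _ _ ho hy ?_
        rw [← hcc, hcy, hct, ← hcw]
        abel
      rw [e]
      exact hvy
    · show cl (emb U t) - cl (emb U t0) = h
      rw [hct]
      abel
  have hT2 := trv k U f g env (g.coeff 4) q q w hset
  have G4 := gsh _ (-h2) (H0.neg_mem hh2) hc
  have G5 : Gn th H0 fun h' => KDT.Z.Good g cl (c + cl (emb U t0) - h2 + h') w := by
    obtain ⟨C, hC⟩ := ghi U g J th cl jk.toJG (c + cl (emb U t0) - h2) w hw
    exact ⟨C, fun h _ h3 => hC h h3⟩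
  obtain ⟨C, hC⟩ := gand _ _ G4 G5
  refine ⟨C, fun h hh hCh => ?_⟩
  obtain ⟨⟨y, hy, hvy, hcy⟩, x, hx, hcx, hr, hro⟩ := hC h hh hCh
  have hxy : x = y := by
    refine jk.cl_inj _ _ hx hy ?_
    rw [← hcx, hcy]
    abel
  subst hxy
  obtain ⟨ho, hcc⟩ := jk.comp x w hx hw hr hro
  refine ⟨_, ho, hT2 x hvy hr hro, ?_⟩
  rw [← hcc, hcy, ← hcw]
  abel

end Pool.Agent.COV.H40
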