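import Pool.Agent.COV.StmtsC
import Pool.Agent.Helper71_KDS.KSF

set_option autoImplicit false

/-!
# Squad COV, row KDC (MP_160b6c_nt); copy of KDFP (helper18)
-/

namespace Pool.Agent.COV.H40

open Polynomial NumberField H58Q Pool.Agent.SZT Pool.Agent.KDT Pool.Agent.KDS Pool.Agent.KDS.H71
  Pool.Agent.KDD Pool.Agent.KDD.H18

theorem kdc0 (hGLT : GltStatement) (hCNS : CnsStatement) (hMVP : MvpStatement)
    (hINS : InsStatement) (hEXC : ExcStatement) (hDPB : DpbStatement)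
    (hLMN : Pool.Agent.KDT.LmnStatement) (hZERO : ZrcStmt)
    (hPEL : PelStatement) (hREX : RexStatement) (hDSH : DshStatement) (hQVN : QvnStatement)
    (hGPR : GprStatement) (hDED : UBT.DedStmt) : KdcStmt := by
  intro d ε hε
  obtain ⟨n₀, hn₀⟩ := exists_nat_ge (40 / ε)
  have hn₀pos : 0 < n₀ := by
    rcases Nat.eq_zero_or_pos n₀ with h | h
    · rw [h, Nat.cast_zero] at hn₀
      exact absurd hn₀ (not_le.2 (by positivity))
    · exact h
  obtain ⟨i, hi, hgain⟩ := hCNS (72 / ε)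
  obtain ⟨Cc, hCc, hgls⟩ := hGLT i hi
  obtain ⟨C', hC'0, hexc⟩ := hEXC i
  obtain ⟨B₁, hB₁⟩ := hGPR d (Real.exp (20 * (Cc * d)))
  obtain ⟨B₂, hB₂⟩ := hZERO (lev i + ⌈C'⌉₊)
  set m₀ := (250 * n₀).factorial with hm₀
  have hm₀pos : 0 < m₀ := Nat.factorial_pos _
  refine ⟨max (m₀ * B₂) (max B₁ B₂), ?_⟩
  intro K _ _ hd Y hmon hdeg hint S hS hmain
  intro c hc
  by_cases hThin : Cov (max (m₀ * B₂) (max B₁ B₂)) (acl Y.f)
  · exact Or.inr hThin
  refine Or.inl ?_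
  have hded : IsDedekindDomain (Q K Y.f) := hDED K Y.f two_ne_zero Y.sqfree
  have hfin : IsOfFinOrder (c ^ m₀) := hc.pow
  set N := orderOf (c ^ m₀) with hNdef
  have hNpos : 0 < N := orderOf_pos_iff.2 hfin
  have hpow : (c ^ m₀) ^ N = 1 := pow_orderOf_eq_one _
  have hle : orderOf c ≤ m₀ * N := by
    apply Nat.le_of_dvd (Nat.mul_pos hm₀pos hNpos)
    apply orderOf_dvd_of_pow_eq_one
    rw [pow_mul]
    exact hpow
  -- the ideals
  have h2 : (2 : K) ≠ 0 := two_ne_zero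
  obtain ⟨A₁, B₁', hI, hmum, _, hcl⟩ := hREX K Y.f h2 Y.sqfree hdeg c
  have hclk : ∀ k : ℕ, ClassGroup.mk0 ((⟨MI Y.f A₁ B₁', hI⟩ :
      nonZeroDivisors (Ideal (Q K Y.f))) ^ k) = c ^ k := by
    intro k
    rw [map_pow, hcl]
  have hprin : ∀ k : ℕ, ((MI Y.f A₁ B₁') ^ k).IsPrincipal ↔ c ^ k = 1 := by
    intro k
    rw [← hclk k]
    exact (ClassGroup.mk0_eq_one_iff (I := (MI Y.f A₁ B₁') ^ k) (pow_mem hI k)).symm
  choose A B hA hAmum hAdeg hAcl using fun k : ℕ => hREX K Y.f h2 Y.sqfree hdeg (c ^ (m₀ * k))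
  have hsame : ∀ k, SameCl (MI Y.f (A k) (B k)) ((MI Y.f A₁ B₁') ^ (m₀ * k)) := by
    intro k
    have h3 := (hAcl k).trans (hclk (m₀ * k)).symm
    rw [ClassGroup.mk0_eq_mk0_iff] at h3
    obtain ⟨a, b, ha, hb, hab⟩ := h3
    exact ⟨a, b, ha, hb, hab⟩
  have hsame2 : ∀ k, SameCl (MI Y.f (A (2 * k)) (B (2 * k))) (MI Y.f (A k) (B k) ^ 2) := by
    intro k
    have h3 : ClassGroup.mk0 ((⟨MI Y.f (A k) (B k), hA k⟩ :
        nonZeroDivisors (Ideal (Q K Y.f))) ^ 2) = c ^ (m₀ * (2 * k)) := by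
      rw [map_pow, hAcl k, ← pow_mul]
      congr 1
      ring
    have h4 := (hAcl (2 * k)).trans h3.symm
    rw [ClassGroup.mk0_eq_mk0_iff] at h4
    obtain ⟨a, b, ha, hb, hab⟩ := h4
    exact ⟨a, b, ha, hb, hab⟩
  have hI0 : MI Y.f A₁ B₁' ≠ ⊥ := mem_nonZeroDivisors_iff_ne_zero.1 hI
  have hI0' : (MI Y.f A₁ B₁') ^ m₀ ≠ ⊥ := pow_ne_zero m₀ hI0
  have hprinN : ∀ j : ℕ, (((MI Y.f A₁ B₁') ^ m₀) ^ j).IsPrincipal ↔ N ∣ j := by
    intro j
    rw [← pow_mul, hprin, pow_mul, ← orderOf_dvd_iff_pow_eq_one]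
  have hsameN : ∀ k, SameCl (MI Y.f (A k) (B k)) (((MI Y.f A₁ B₁') ^ m₀) ^ k) := by
    intro k
    rw [← pow_mul]
    exact hsame k
  -- generators of the powers
  have hUW : ∀ k : ℕ, ∃ U W : K[X], Good Y.f (A k) (B k) →
      Gen Y.f (A k) (B k) U W (2 * N) := by
    intro k
    by_cases hg : Good Y.f (A k) (B k)
    · have h3 : ((MI Y.f (A k) (B k)) ^ (2 * N)).IsPrincipal := by
        have h4 : ClassGroup.mk0 ((⟨MI Y.f (A k) (B k), hA k⟩ :
            nonZeroDivisors (Ideal (Q K Y.f))) ^ (2 * N)) = 1 := by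
          rw [map_pow, hAcl k, ← pow_mul]
          have h5 : m₀ * k * (2 * N) = m₀ * N * (2 * k) := by ring
          rw [h5, pow_mul c (m₀ * N) (2 * k), pow_mul c m₀ N, hpow, one_pow]
        exact (ClassGroup.mk0_eq_one_iff (I := (MI Y.f (A k) (B k)) ^ (2 * N))
          (pow_mem (hA k) (2 * N))).1 h4
      obtain ⟨U, W, h5, h6, h7⟩ := hPEL K Y.f (A k) (B k) (2 * N) h2 Y.sqfree hdeg hg
        (by positivity) h3
      exact ⟨U, W, fun _ => ⟨by positivity, even_two_mul N, h5, h6, h7⟩⟩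
    · exact ⟨0, 0, fun h => absurd h hg⟩
  choose U W hGen using hUW
  obtain ⟨hD0, _, hh0, hnorm, hsum, _⟩ := hDSH K Y.f hmon hdeg Y.sqfree hint
  -- case distinction
  by_cases hdet : ∀ r : QI i → {k : ℕ // k < N ∧ ∀ a ≤ i, VG Y.f (A (2 ^ a * k)) (B (2 ^ a * k))},
      (Matrix.of fun (j q : QI i) => (fun (k : {k : ℕ // k < N ∧ ∀ a ≤ i,
        VG Y.f (A (2 ^ a * k)) (B (2 ^ a * k))}) (q : QI i) => ∏ a : Fin i, mon (q a).1
        (kum Y.f (A (2 ^ (a : ℕ) * k.1)) (B (2 ^ (a : ℕ) * k.1)))) (r j) q).det = 0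
  · -- case 2
    obtain ⟨c₀, hc₀, hsumc⟩ := hLMN K (QI i) {k : ℕ // k < N ∧ ∀ a ≤ i,
        VG Y.f (A (2 ^ a * k)) (B (2 ^ a * k))} (fun (k : {k : ℕ // k < N ∧ ∀ a ≤ i,
        VG Y.f (A (2 ^ a * k)) (B (2 ^ a * k))}) (q : QI i) => ∏ a : Fin i, mon (q a).1
        (kum Y.f (A (2 ^ (a : ℕ) * k.1)) (B (2 ^ (a : ℕ) * k.1)))) hdet
    obtain ⟨P, hPdeg, hPev⟩ := hMVP K Y.f i c₀
    obtain ⟨E, hE, φ, A', B', hm', hn', hne', hval'⟩ := hINS K Y.f i c₀ hmon hdeg Y.sqfree hc₀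
    have hzero := hB₂ K Y.f hmon hdeg Y.sqfree P (hPdeg.trans (Nat.le_add_right _ _))
      ⟨E, hE, φ, A', B', hm', hn', hne', by rw [hPev]; exact hval'⟩
      ((MI Y.f A₁ B₁') ^ m₀) N hI0' hNpos hprinN
    have hexc' := hexc K Y.f ((MI Y.f A₁ B₁') ^ m₀) N A B hmon hdeg Y.sqfree hI0' hNpos hprinN
      (fun k => ⟨hAmum k, hAdeg k, hsameN k⟩)
    have hsub : {j : ℕ | j < N ∧ ¬ ∃ A B : K[X], Mum Y.f A B ∧ A.natDegree = 2 ∧
        SameCl (MI Y.f A B) (((MI Y.f A₁ B₁') ^ m₀) ^ j) ∧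
        MvPolynomial.eval (kum Y.f A B) P = 0} ⊆
        {k : ℕ | k < N ∧ ¬ ∀ a ≤ i, VG Y.f (A (2 ^ a * k)) (B (2 ^ a * k))} := by
      rintro k ⟨hkN, hk⟩
      refine ⟨hkN, fun hall => hk ?_⟩
      have hg : Good Y.f (A k) (B k) := by
        have h := (hall 0 (Nat.zero_le _)).1
        rwa [pow_zero, one_mul] at h
      refine ⟨A k, B k, hAmum k, hg.two, hsameN k, ?_⟩
      show MvPolynomial.eval₂ (RingHom.id K) (kum Y.f (A k) (B k)) P = 0
      rw [hPev, Polynomial.map_id]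
      have h3 : ∀ a : Fin i, ∃ c : K, dpw Y.f a (kum Y.f (A k) (B k)) =
          c • kum Y.f (A (2 ^ (a : ℕ) * k)) (B (2 ^ (a : ℕ) * k)) := fun a =>
        dpw_kum hDPB Y.f h2 hmon hdeg Y.sqfree A B hsame2 a k
          (fun b hb => hall b (hb.trans a.2.le))
      choose Λ hΛ using h3
      have h4 : ∀ q : QI i, PQ Y.f i q (kum Y.f (A k) (B k)) = (∏ a : Fin i, Λ a ^ 2) *
          ∏ a : Fin i, mon (q a).1 (kum Y.f (A (2 ^ (a : ℕ) * k)) (B (2 ^ (a : ℕ) * k))) := by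
        intro q
        unfold PQ
        rw [← Finset.prod_mul_distrib]
        refine Finset.prod_congr rfl fun a _ => ?_
        rw [hΛ a, mon_smul]
      have h5 := hsumc ⟨k, hkN, hall⟩
      calc ∑ q, (RingHom.id K) (c₀ q) * PQ Y.f i q (kum Y.f (A k) (B k))
          = (∏ a : Fin i, Λ a ^ 2) * ∑ q, c₀ q * ∏ a : Fin i, mon (q a).1
              (kum Y.f (A (2 ^ (a : ℕ) * k)) (B (2 ^ (a : ℕ) * k))) := by
            rw [Finset.mul_sum]
            refine Finset.sum_congr rfl fun q _ => ?_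
            rw [h4 q, RingHom.id_apply]
            ring
        _ = 0 := by
            rw [h5, mul_zero]
    have hcard : (({j : ℕ | j < N ∧ ¬ ∃ A B : K[X], Mum Y.f A B ∧ A.natDegree = 2 ∧
        SameCl (MI Y.f A B) (((MI Y.f A₁ B₁') ^ m₀) ^ j) ∧
        MvPolynomial.eval (kum Y.f A B) P = 0}.ncard : ℕ) : ℝ) ≤
        ((lev i + ⌈C'⌉₊ : ℕ) : ℝ) * (Real.sqrt N + 1) := by
      have hfinite : {k : ℕ | k < N ∧ ¬ ∀ a ≤ i,
          VG Y.f (A (2 ^ a * k)) (B (2 ^ a * k))}.Finite :=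
        (Set.finite_lt_nat N).subset (fun k hk => hk.1)
      have h3 : ({j : ℕ | j < N ∧ ¬ ∃ A B : K[X], Mum Y.f A B ∧ A.natDegree = 2 ∧
          SameCl (MI Y.f A B) (((MI Y.f A₁ B₁') ^ m₀) ^ j) ∧
          MvPolynomial.eval (kum Y.f A B) P = 0}.ncard : ℝ) ≤
          ({k : ℕ | k < N ∧ ¬ ∀ a ≤ i,
            VG Y.f (A (2 ^ a * k)) (B (2 ^ a * k))}.ncard : ℝ) := by
        exact_mod_cast Set.ncard_le_ncard hsub hfinite
      have h4 : C' * (Real.sqrt N + 1) ≤ ((lev i + ⌈C'⌉₊ : ℕ) : ℝ) * (Real.sqrt N + 1) := by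
        refine mul_le_mul_of_nonneg_right ?_ (by positivity)
        have h5 := Nat.le_ceil C'
        push_cast
        have h6 : (0 : ℝ) ≤ (lev i : ℝ) := Nat.cast_nonneg _
        linarith
      exact h3.trans (hexc'.trans h4)
    rcases hzero hcard with h | h
    · exact (hle.trans (Nat.mul_le_mul_left m₀ h)).trans (le_max_left _ _)
    · exfalso
      refine hThin ?_
      obtain ⟨j, P, Q, V, h1, h2, h3, h4, h5, h6⟩ := h
      have h7 : B₂ ≤ max (m₀ * B₂) (max B₁ B₂) := (le_max_right _ _).trans (le_max_right _ _)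
      exact ⟨j, P, Q, V, h1, h2, h3.trans h7, h4.trans h7, h5, h6⟩
  · -- case 1
    refine le_trans ?_ ((le_max_left B₁ B₂).trans (le_max_right _ _))
    push Not at hdet
    obtain ⟨r, hr⟩ := hdet
    have hglsK := hgls K Y.f m₀ n₀ (2 * N) (MI Y.f A₁ B₁') (fun j a => A (2 ^ a * (r j).1))
      (fun j a => B (2 ^ a * (r j).1)) (fun j a => U (2 ^ a * (r j).1))
      (fun j a => W (2 ^ a * (r j).1)) (fun j => (r j).1) (72 / ε * i * 10 ^ i) S hmon hdeg
      Y.sqfree hint hI0 (fun n h0 h1 => Nat.dvd_factorial h0 h1) hgain hS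
      (fun j a ha => ⟨(r j).2.2 a ha, hGen _ ((r j).2.2 a ha).1, hsame _⟩) hr
    -- the valuations
    have hl0 : ∀ v ∈ S, 0 < - Real.log (v (discr Y.f)) := by
      intro v hv
      have h3 : 0 < v (discr Y.f) := lt_of_le_of_ne (apply_nonneg v _)
        (Ne.symm ((map_ne_zero v).2 hD0))
      linarith [Real.log_neg h3 (hS v hv).2]
    have hval : ∀ v ∈ S, ∃ n : ℕ, 0 < n ∧
        v (discr Y.f) * (Ideal.absNorm v.maximalIdeal.asIdeal : ℝ) ^ n = 1 :=
      fun v hv => hQVN K v _ hD0 (hS v hv).2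
    have hNv : ∀ v ∈ S, (1 : ℝ) ≤ (Ideal.absNorm v.maximalIdeal.asIdeal : ℝ) := by
      intro v hv
      obtain ⟨n, hn, h3⟩ := hval v hv
      have h4 : Ideal.absNorm v.maximalIdeal.asIdeal ≠ 0 := by
        intro h5
        rw [h5, Nat.cast_zero, zero_pow hn.ne', mul_zero] at h3
        exact zero_ne_one h3
      exact_mod_cast Nat.one_le_iff_ne_zero.2 h4
    have hlog : ∀ v ∈ S, ∀ n : ℕ, 0 < n →
        v (discr Y.f) * (Ideal.absNorm v.maximalIdeal.asIdeal : ℝ) ^ n = 1 →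
        - Real.log (v (discr Y.f)) = n * Real.log (Ideal.absNorm v.maximalIdeal.asIdeal) := by
      intro v hv n hn h3
      have h4 : 0 < v (discr Y.f) := lt_of_le_of_ne (apply_nonneg v _)
        (Ne.symm ((map_ne_zero v).2 hD0))
      have h5 := congrArg Real.log h3
      have h6 : (0 : ℝ) < (Ideal.absNorm v.maximalIdeal.asIdeal : ℝ) :=
        lt_of_lt_of_le one_pos (hNv v hv)
      rw [Real.log_mul h4.ne' (pow_pos h6 n).ne', Real.log_pow, Real.log_one] at h5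
      linarith
    classical
    have hR := Pool.Agent.SZT.H44.sum_R S (fun v => v (discr Y.f) *
        (Ideal.absNorm v.maximalIdeal.asIdeal : ℝ) ^ n₀ < 1)
      (fun v => - Real.log (v (discr Y.f)))
      (fun v => Real.log (Ideal.absNorm v.maximalIdeal.asIdeal)) (n₀ : ℝ)
      (by
        intro v hv hP
        obtain ⟨n, hn, h3⟩ := hval v hv
        have h4 : n₀ < n := by
          by_contra h5
          have h6 := pow_le_pow_right₀ (hNv v hv) (not_lt.1 h5)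
          have h7 := mul_le_mul_of_nonneg_left h6 (apply_nonneg v (discr Y.f))
          linarith
        have h8 := hlog v hv n hn h3
        have h9 := Real.log_nonneg (hNv v hv)
        rw [le_div_iff₀ (by exact_mod_cast hn₀pos)]
        rw [h8]
        have h10 : (n₀ : ℝ) ≤ n := by exact_mod_cast h4.le
        nlinarith)
      (by
        intro v hv _
        obtain ⟨n, hn, h3⟩ := hval v hv
        have h8 := hlog v hv n hn h3
        have h9 := Real.log_nonneg (hNv v hv)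
        have h10 : (1 : ℝ) ≤ n := by exact_mod_cast hn
        show Real.log (Ideal.absNorm v.maximalIdeal.asIdeal) ≤ - Real.log (v (discr Y.f))
        rw [h8]
        nlinarith)
    have hT'T : ∑ v ∈ S with v (discr Y.f) *
        (Ideal.absNorm v.maximalIdeal.asIdeal : ℝ) ^ n₀ < 1, (- Real.log (v (discr Y.f))) ≤
        ∑ v ∈ S, (- Real.log (v (discr Y.f))) := by
      apply Finset.sum_le_sum_of_subset_of_nonneg (Finset.filter_subset _ _)
      intro v hv _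
      exact (hl0 v hv).le
    have hT20 : ∑ v ∈ S, (- Real.log (v (discr Y.f))) ≤ 20 * lH Y.f := by
      rw [Finset.sum_neg_distrib]
      exact hsum S
    have hsplit : ∑ v ∈ S, (- Real.log (v (discr Y.f))) - (∑ v ∈ S with v (discr Y.f) *
        (Ideal.absNorm v.maximalIdeal.asIdeal : ℝ) ^ n₀ < 1, (- Real.log (v (discr Y.f)))) =
        - ∑ v ∈ S with ¬ v (discr Y.f) *
        (Ideal.absNorm v.maximalIdeal.asIdeal : ℝ) ^ n₀ < 1, Real.log (v (discr Y.f)) := by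
      rw [← Finset.sum_neg_distrib, ← Finset.sum_filter_add_sum_filter_not S
        (fun v => v (discr Y.f) * (Ideal.absNorm v.maximalIdeal.asIdeal : ℝ) ^ n₀ < 1)
        (fun v => - Real.log (v (discr Y.f)))]
      ring
    have hglsK' : 36 / ε * i * 10 ^ i * (- ∑ v ∈ S with ¬ v (discr Y.f) *
        (Ideal.absNorm v.maximalIdeal.asIdeal : ℝ) ^ n₀ < 1, Real.log (v (discr Y.f))) ≤
        17 * i * 10 ^ i * lH Y.f + Cc * Module.finrank ℚ K := by
      have h3 : 72 / ε * (i : ℝ) * 10 ^ i / 2 = 36 / ε * i * 10 ^ i := by ring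
      rw [← h3]
      exact hglsK
    have hbound : lH Y.f ≤ Cc * d := by
      refine num_core (i := i) (d' := Module.finrank ℚ K) hi hε hn₀ hh0 (hT'T.trans hT20)
        (hR.trans (le_of_eq ?_)) hmain hCc (by exact_mod_cast hd) (Nat.cast_nonneg d) hglsK'
      rw [hsplit]
    refine hB₁ K hd Y hmon hdeg hint (hnorm.trans ?_) c hc
    exact Real.exp_le_exp.2 (by linarith)

end Pool.Agent.COV.H40
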