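import Pool.Agent.Helper40_COV.FinalA
import Pool.Agent.Helper27_COV.PRS
import Pool.Agent.Helper97_COV.IGD
import Pool.Agent.Helper64_COV.GHI
import Pool.Agent.Helper10_COV.GNL
import Pool.Agent.Helper45_COV.ZFU
import Pool.Agent.Helper88_COV.GNX
import Pool.Agent.Helper8_COV.TRV
import Pool.Agent.Helper86_COV.HSA
import Pool.Agent.Helper40_COV.HAD0
import Pool.Agent.Helper44_COV.HRE
import Pool.Agent.Helper50_COV.HNG
import Pool.Agent.Helper25_COV.HGR
import Pool.Agent.Helper34_COV.HTR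
import Pool.Agent.Helper47_COV.DER
import Pool.Agent.Helper94_COV.ABL
import Pool.Agent.Helper6_COV.AB2
import Pool.Agent.Helper32_COV.INV
import Pool.Agent.Helper14_COV.HOM
import Pool.Agent.Helper93_COV.CLS
import Pool.Agent.Helper14_COV.FIX
import Pool.Agent.Helper68_COV.LUR
import Pool.Agent.Helper24_COV.FLD
import Pool.Agent.Helper51_COV.GRP
import Pool.Agent.Helper88_COV.ZRC
import Pool.Agent.Helper40_COV.KDC0
import Pool.Agent.Helper53_COV.CVM
import Pool.Agent.Helper66_COV.CVS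
import Pool.Agent.Helper4_COV.CVT
import Pool.Agent.Helper60_COV.FA8
import Pool.Agent.Helper25_COV.LI8
import Pool.Agent.Helper22_COV.MU8

set_option autoImplicit false

/-! Squad COV: assembly (MP_160b6c_nt). -/

namespace Pool.Agent.COV.H40

open Pool.Agent.KDT.H18

theorem gnl : GnlStmt := H10.gnl H97.igd
theorem ghi : GhiStmt := H64.ghi
theorem trv : TrvStmt := H8.trv z_cpp z_sub H45.zfu
theorem hsa : HsaStmt := H86.hsa ghi gnl z_hsp z_cma z_emb
theorem had : HadStmt := had0 ghi gnl trv hsa z_emb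
theorem hre : HreStmt := H44.hre H88X.gnx gnl z_emb
theorem hng : HngStmt := H50.hng ghi gnl trv hsa z_cma z_emb
theorem hgr : HgrStmt := H25.hgr hsa had hre hng gnl
theorem htr : HtrStmt := H34.htr hgr hre hsa ghi gnl z_trd z_sbg z_cma z_emb
theorem ab2 : Ab2Stmt := H6.ab2 H94.abl z_cma
theorem inv : InvStmt := H32.inv H27P.prs ghi gnl ab2 z_emb z_cma
theorem hom : HomStmt := H14.hom H27P.prs htr H47.der ab2 inv z_cma
theorem cls : ClsStmt := H93.cls H27P.prs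
theorem fix : FixStmt := H14.fix
theorem fld : FldStmt := H24.fld alg fix (H68.lur fix)
theorem grp : GrpStmt := H51.grp hom cls fld z_gup z_inp z_sbg

theorem zrc : ZrcStmt :=
  H88Z.zrc grp z_nrm z_tdo z_jke z_fun z_stb z_stc z_std z_sbg z_stf a_ded z_emb

section
open Pool.Agent.KDS.H18 Pool.Agent.KDD.H18

theorem kdc : KdcStmt :=
  kdc0 (t_glt t_gle) s_cns s_mvp (s_ins KDS.H60.qtd) s_exc s_dpb k_lmn zrc a_pel a_rex a_dsh
    a_qvn a_gpr a_ded

end

theorem cvt : CvtStmt := H4.cvt H53.cvm H66.cvs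

open Pool.Agent.TTC in
theorem fam8 : Fam8Stmt :=
  H60.fa8 TTC.H40.na6 TTC.H40.na7 TTC.H40.sf6 TTC.H92.bn7 TTC.H62.fac (TTC.H49.cn2 TTC.H77.rnk)
    TTC.H53.om1 (TTC.H50.si7 TTC.H40.na6 TTC.H40.na7 TTC.H40.cr7)
    (TTC.H35.lo7 TTC.H40.na6 TTC.H40.na7 TTC.H40.cr7 TTC.H88.om7) (TTC.H3.ht6 TTC.H40.na6)
    TTC.H51.pg7 TTC.H81.pl6 kdc cvt

theorem lin8 : Lin8Stmt :=
  H25.lin8 TTC.H40.na6 TTC.H40.na7 TTC.H22.sb1 TTC.H49.sb2 TTC.H15Dir.dir TTC.H92.ndg TTC.H30.md7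
    TTC.H97.lsz fam8

theorem mul8 : Mul8Stmt := H22.mu8 TTC.H22.sb1 TTC.H40.szb lin8

end Pool.Agent.COV.H40
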