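import Pool.Agent.COV.StmtsD
import Pool.Agent.Helper51_TTC.PG7

/-!
# Row PG9 of squad COV (MP_160b6c_nt)
-/

set_option autoImplicit false

namespace Pool.Agent.COV.H40

open Polynomial NumberField Pool.Agent.TTC

theorem pg9 : Pg9Stmt := by
  intro K _ _ a P W ha hs hP
  classical
  set F : K[X] := sext a with hF
  have hc6 : F.coeff 6 = a 0 := by
    rw [hF, TTC.H51.sext_coeff_six]
  have hF0 : F ≠ 0 := by
    intro h
    apply ha
    rw [← hc6, h, coeff_zero]
  have hdle : F.natDegree ≤ 6 := TTC.H51.sext_natDegree_le a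
  have hd : F.natDegree = 6 := le_antisymm hdle (le_natDegree_of_ne_zero (by rw [hc6]; exact ha))
  have hdeg : F.degree ≠ 0 := by
    rw [degree_eq_natDegree hF0, hd]
    decide
  obtain ⟨α₀, hα₀⟩ := hs.exists_eval_eq_zero hdeg
  have hmem : ∀ α : K, F.eval α = 0 → α ∈ F.roots.toFinset := fun α hα =>
    Multiset.mem_toFinset.mpr ((mem_roots hF0).mpr hα)
  obtain ⟨α, hα, P', hP', hsum, hQ⟩ := TTC.H51.pigeon F.roots.toFinset P
    (fun α p => ∃ v : FinitePlace K, v (p : K) < 1 ∧ W v ∧ v ((derivative F).eval α) = 1)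
    ⟨α₀, hmem α₀ hα₀⟩
    (le_trans (Multiset.toFinset_card_le _) (le_trans (card_roots' F) hdle))
    (fun p hp => by
      obtain ⟨v, α, h1, h2, h3, h4⟩ := hP p hp
      exact ⟨α, hmem α h3, v, h1, h2, h4⟩)
  exact ⟨α, (mem_roots hF0).mp (Multiset.mem_toFinset.mp hα), P', hP', hsum, hQ⟩

end Pool.Agent.COV.H40
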