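import Pool.Agent.Helper40_COV.Final6
import Pool.Agent.COV.StmtsD
import Pool.Agent.Helper86_COV.LR1
import Pool.Agent.Helper45_COV.LR2
import Pool.Agent.Helper88_COV.LR3
import Pool.Agent.Helper11_COV.NPL
import Pool.Agent.Helper50_COV.SZA
import Pool.Agent.Helper81_COV.CR9
import Pool.Agent.Helper35_COV.EXV
import Pool.Agent.Helper14_COV.SI9
import Pool.Agent.Helper1_COV.LO9
import Pool.Agent.Helper5_COV.OM9
import Pool.Agent.Helper27_COV.HT9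
import Pool.Agent.Helper40_COV.PG9
import Pool.Agent.Helper73_COV.CV9
import Pool.Agent.Helper40_COV.GD9
import Pool.Agent.Helper62_COV.MU9
import Pool.Agent.Helper49_COV.GB9

set_option autoImplicit false

/-! Squad COV: assembly of block D (MP_160b6c_nt). -/

namespace Pool.Agent.COV.H40

theorem lr1 : Lr1Stmt := H86.lr1 TTC.H62.fac (TTC.H49.cn2 TTC.H77.rnk)

theorem lr2 : Lr2Stmt :=
  H45.lr2 TTC.H22.sb1 TTC.H49.sb2 TTC.H15Dir.dir TTC.H92.ndg TTC.H97.lsz lr1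

theorem lr3 : Lr3Stmt := H88L.lr3 TTC.H22.sb1 TTC.H40.szb lr2

theorem gd9 : Gd9Stmt :=
  gd90 TTC.H40.na6 TTC.H40.na7 TTC.H40.cr6 kdc H35.exv
    (H14.si9 TTC.H40.na6 TTC.H40.na7 TTC.H40.cr7)
    (H1.lo9 TTC.H40.na6 TTC.H40.na7 TTC.H40.cr7 TTC.H88.om7) H5.om9 (H27H.ht9 TTC.H40.na6)
    pg9 TTC.H81.pl6 (H73.cv9 H53.cvm H66.cvs)

theorem mu9 : Mu9Stmt :=
  H62.mu9 TTC.H40.na6 TTC.H40.na7 lr3 H11.npl H50.sza H81Cr9.cr9 gd9

theorem gb9 : Gb9Stmt := H49.gb9 (H91.gel gnc) TTC.H40.szb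

end Pool.Agent.COV.H40
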