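import Pool.Agent.Helper49_COV.GB9

/-!
# COV block D, uniform in the number field (MP_160b6c_nt): maps to elliptic curves (adapted from helper49)
-/

set_option autoImplicit false

namespace Pool.Agent.COV.H40

open Polynomial NumberField Pool.Agent.COV Pool.Agent.COV.H49

/-- GB9, uniform in the number field -/
theorem gbu0 (h1 : GelStmt) (h2 : TTC.SzbStmt) (n k m : ℕ) : ∃ M : ℕ,
    ∀ (K₀ : Type) [Field K₀] [NumberField K₀]
    (F : Fin 7 → MvPolynomial (Fin (m + 1)) (𝓞 K₀)) (T : Fin (m + 1) → ℕ) (i₀ : Fin (m + 1))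
    (ψ : K₀ →+* ℂ), (∀ i, 1 ≤ T i ∧ T i₀ ≤ T i) → (∀ i, (F i).totalDegree ≤ k) →
    AlgebraicIndependent ℤ F →
    {t : Fin (m + 1) → ℤ | (∀ i, |t i| ≤ (T i : ℤ)) ∧ Cov n (TTC.sext fun i =>
      ψ ((MvPolynomial.eval (fun l => ((t l : ℤ) : 𝓞 K₀)) (F i) : 𝓞 K₀) : K₀))}.ncard * T i₀
      ≤ M * ∏ i, T i := by
  classical
  obtain ⟨R, hR, hRz⟩ := h1 n
  refine ⟨R.totalDegree * k * 3 ^ (m + 1), ?_⟩
  intro K₀ _ _ F T i₀ ψ hT hF hA
  obtain ⟨φ, hφ⟩ : ∃ φ : 𝓞 K₀ →+* ℂ, φ = ψ.comp (algebraMap (𝓞 K₀) K₀) := ⟨_, rfl⟩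
  have hφa : ∀ x : 𝓞 K₀, φ x = ψ (x : K₀) := fun x => by rw [hφ]; rfl
  have hφi : Function.Injective φ := by
    intro x y h
    rw [hφa, hφa] at h
    exact RingOfIntegers.coe_injective (ψ.injective h)
  obtain ⟨R', hR'⟩ : ∃ R', R' = MvPolynomial.aeval F R := ⟨_, rfl⟩
  have hR'0 : R' ≠ 0 := by
    intro h
    apply hR
    apply algebraicIndependent_iff.1 hA
    rw [← hR', h]
  have hmap : MvPolynomial.map φ R' ≠ 0 := by
    intro h
    apply hR'0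
    apply MvPolynomial.map_injective φ hφi
    rw [h, map_zero]
  have hdeg : (MvPolynomial.map φ R').totalDegree ≤ R.totalDegree * k := by
    refine le_trans ?_ (hR' ▸ td_aeval9 k F hF R)
    exact Finset.sup_mono (MvPolynomial.support_map_subset _ _)
  have hz := h2 (m + 1) (MvPolynomial.map φ R') T (T i₀) hmap (hT i₀).1
    (fun j => by have := (hT j).2; omega)
  have hfin : {b : Fin (m + 1) → ℤ | (∀ j, |b j| ≤ (T j : ℤ)) ∧
      MvPolynomial.eval (fun j => ((b j : ℤ) : ℂ)) (MvPolynomial.map φ R') = 0}.Finite := by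
    apply Set.Finite.subset (Fintype.piFinset fun j => Finset.Icc (-(T j : ℤ)) (T j)).finite_toSet
    intro b hb
    rw [Finset.mem_coe, Fintype.mem_piFinset]
    intro j
    rw [Finset.mem_Icc, ← abs_le]
    exact hb.1 j
  have hsub : {t : Fin (m + 1) → ℤ | (∀ i, |t i| ≤ (T i : ℤ)) ∧ Cov n (TTC.sext fun i =>
      ψ ((MvPolynomial.eval (fun l => ((t l : ℤ) : 𝓞 K₀)) (F i) : 𝓞 K₀) : K₀))} ⊆
      {b : Fin (m + 1) → ℤ | (∀ j, |b j| ≤ (T j : ℤ)) ∧
      MvPolynomial.eval (fun j => ((b j : ℤ) : ℂ)) (MvPolynomial.map φ R') = 0} := by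
    intro t ht
    refine ⟨ht.1, ?_⟩
    rw [eval_cast9, hR', eval_aeval9]
    have h3 := hRz _ ht.2
    have e : (fun i => φ (MvPolynomial.eval (fun l => ((t l : ℤ) : 𝓞 K₀)) (F i))) =
      (fun i => ψ ((MvPolynomial.eval (fun l => ((t l : ℤ) : 𝓞 K₀)) (F i) : 𝓞 K₀) : K₀)) :=
      funext fun i => hφa _
    rw [e]
    exact h3
  have hcard := Set.ncard_le_ncard hsub hfin
  have hprod : ∏ j, (2 * T j + 1) ≤ 3 ^ (m + 1) * ∏ j, T j := by
    have e1 : (3 : ℕ) ^ (m + 1) * ∏ j, T j = ∏ j, (3 * T j) := by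
      rw [Finset.prod_mul_distrib, Finset.prod_const, Finset.card_univ, Fintype.card_fin]
    rw [e1]
    apply Finset.prod_le_prod'
    intro j _
    have := (hT j).1
    omega
  calc _ ≤ _ * T i₀ := Nat.mul_le_mul hcard le_rfl
    _ = T i₀ * _ := Nat.mul_comm _ _
    _ ≤ _ := hz
    _ ≤ (R.totalDegree * k) * (3 ^ (m + 1) * ∏ j, T j) := Nat.mul_le_mul hdeg hprod
    _ = R.totalDegree * k * 3 ^ (m + 1) * ∏ i, T i := by rw [← Nat.mul_assoc]

end Pool.Agent.COV.H40
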