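import Pool.Agent.Helper40_COV.GD9

/-!
# COV block D, uniform in the number field (MP_160b6c_nt): many primes give bounded torsion
-/

set_option autoImplicit false

namespace Pool.Agent.COV.H40

open Polynomial NumberField Pool.Agent.SZT Pool.Agent.KDD Pool.Agent.TTC

/-- GD9, uniform in the number field -/
theorem gdu0 (hNA : Na6Stmt) (hNA7 : Na7Stmt) (hCR : Cr6Stmt) (hK : KdcStmt) (hEX : ExvStmt)
    (hSI : Si9Stmt) (hLO : Lo9Stmt) (hOM : Om9Stmt) (hHT : Ht9Stmt) (hPG : Pg9Stmt)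
    (hPL : Pl6Stmt) (hCV : Cv9Stmt) (d : ℕ) (ε : ℝ) (hε : 0 < ε) : ∃ B : ℕ,
    ∀ (K₀ : Type) [Field K₀] [NumberField K₀] (a : Fin 7 → 𝓞 K₀) (M j m s : ℕ), 2 ≤ M →
    (∀ (ψ : K₀ →+* ℂ) (i : Fin 7), ‖ψ ((a i : 𝓞 K₀) : K₀)‖ ≤ M) → Algebra.norm ℤ (d6 a) ≠ 0 →
    (M : ℝ) ^ ε ≤ (rad2 (Algebra.norm ℤ (d6 a))
      (Algebra.norm ℤ (e7 j m a + (s : 𝓞 K₀) * d6 a)) : ℝ) →
    Good9 d B a := by
  obtain ⟨A, hA⟩ := hHT
  obtain ⟨B, hB⟩ := hK d (ε / (18 * (A + 1) * (d + 1))) (by positivity)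
  refine ⟨B, ?_⟩
  intro K₀ _ _ a M j m s hM hcoef hnorm hrad
  have hinj : Function.Injective (algebraMap (𝓞 K₀) K₀) := RingOfIntegers.coe_injective
  obtain ⟨a0, ha0⟩ : ∃ a0 : Fin 7 → K₀, a0 = fun i => ((a i : 𝓞 K₀) : K₀) := ⟨_, rfl⟩
  obtain ⟨D, hD⟩ : ∃ D : 𝓞 K₀, D = d6 a := ⟨_, rfl⟩
  obtain ⟨E, hE⟩ : ∃ E : 𝓞 K₀, E = e7 j m a := ⟨_, rfl⟩
  rw [← hD] at hnorm hrad
  rw [← hE] at hrad
  have hd1 : d6 a0 = algebraMap (𝓞 K₀) K₀ D := by
    rw [ha0, hD]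
    exact (hNA (𝓞 K₀) K₀ (algebraMap (𝓞 K₀) K₀) a).2.1
  have he1 : e7 j m a0 = algebraMap (𝓞 K₀) K₀ E := by
    rw [ha0, hE]
    exact hNA7 (𝓞 K₀) K₀ (algebraMap (𝓞 K₀) K₀) a j m
  have hd0 : d6 a0 ≠ 0 := by
    rw [hd1]
    intro h
    have h3 : D = 0 := hinj (by rw [h, map_zero])
    apply hnorm
    rw [h3]
    exact Algebra.norm_zero
  obtain ⟨σ0⟩ : Nonempty (K₀ →+* ℂ) := inferInstance
  obtain ⟨h00, hdeg, hsep⟩ := sf9 hNA hCR σ0 a0 hd0
  refine ⟨by rw [← ha0]; exact hdeg, by rw [← ha0]; exact hsep.squarefree, ?_⟩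
  by_cases hCov : ∀ ψ : K₀ →+* ℂ, Cov B (sext fun i => ψ ((a i : 𝓞 K₀) : K₀))
  · exact Or.inl hCov
  right
  intro K _ _ _ hfr hspl
  obtain ⟨ψ, hψ⟩ := not_forall.1 hCov
  obtain ⟨b, hb⟩ : ∃ b : Fin 7 → K, b = fun i => algebraMap K₀ K ((a i : 𝓞 K₀) : K₀) := ⟨_, rfl⟩
  rw [← hb] at hspl ⊢
  have hba : b = fun i => algebraMap K₀ K (a0 i) := by rw [hb, ha0]
  have hb0 : b 0 ≠ 0 := by
    rw [hba]
    exact (map_ne_zero (algebraMap K₀ K)).2 h00
  have hbs : sext b = (sext a0).map (algebraMap K₀ K) := by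
    rw [hba]
    exact (hNA K₀ K (algebraMap K₀ K) a0).1
  have hbd : d6 b = algebraMap K₀ K (d6 a0) := by
    rw [hba]
    exact (hNA K₀ K (algebraMap K₀ K) a0).2.1
  have hbe : e7 j m b = algebraMap K₀ K (e7 j m a0) := by
    rw [hba]
    exact hNA7 K₀ K (algebraMap K₀ K) a0 j m
  have hbint : ∀ i, IsIntegral ℤ (b i) := by
    intro i
    rw [hb]
    exact (RingOfIntegers.isIntegral_coe (a i)).map (algebraMap K₀ K).toIntAlgHom
  have hvint : ∀ (v : FinitePlace K) (x : K), IsIntegral ℤ x → v x ≤ 1 := by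
    intro v x hx
    obtain ⟨y, hy⟩ : ∃ y : 𝓞 K, algebraMap (𝓞 K) K y = x := ⟨⟨x, hx⟩, rfl⟩
    rw [← hy, ← FinitePlace.norm_embedding_eq]
    exact FinitePlace.norm_le_one K v.maximalIdeal y
  obtain ⟨N, hN⟩ : ∃ N : ℤ, N = Algebra.norm ℤ D := ⟨_, rfl⟩
  obtain ⟨N', hN'⟩ : ∃ N' : ℤ, N' = Algebra.norm ℤ (E + (s : 𝓞 K₀) * D) := ⟨_, rfl⟩
  rw [← hN, ← hN'] at hrad
  obtain ⟨P, hPd⟩ : ∃ P, P = N.natAbs.primeFactors.filter (fun p => ¬ ((p : ℕ) : ℤ) ∣ N') :=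
    ⟨_, rfl⟩
  have hradP : rad2 N N' = ∏ p ∈ P, p := by rw [hPd]; rfl
  rw [hradP] at hrad
  have hpr : ∀ p ∈ P, p.Prime := by
    intro p hp
    rw [hPd, Finset.mem_filter] at hp
    exact Nat.prime_of_mem_primeFactors hp.1
  have hpl : ∀ p ∈ P, ∃ v : FinitePlace K, v (p : K) < 1 ∧ (v (d6 b) < 1 ∧ v (e7 j m b) = 1) := by
    intro p hp
    have h1 := hpr p hp
    rw [hPd, Finset.mem_filter] at hp
    have h2 : (p : ℤ) ∣ N := Int.natCast_dvd.2 (Nat.dvd_of_mem_primeFactors hp.1)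
    obtain ⟨v, h3, h4, h5⟩ := hEX K₀ K D (E + (s : 𝓞 K₀) * D) p h1
      (by rw [← hN]; exact h2) (by rw [← hN']; exact hp.2)
    have h6 : v (d6 b) < 1 := by
      rw [hbd, hd1]
      exact h4
    refine ⟨v, h3, h6, ?_⟩
    have h7 : algebraMap K₀ K (((E + (s : 𝓞 K₀) * D : 𝓞 K₀)) : K₀) =
        e7 j m b + (s : K) * d6 b := by
      rw [hbd, hbe, hd1, he1]
      change algebraMap K₀ K (algebraMap (𝓞 K₀) K₀ (E + (s : 𝓞 K₀) * D)) = _
      rw [map_add, map_mul, map_natCast, map_add, map_mul, map_natCast]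
    rw [h7] at h5
    have h8 : v ((s : K) * d6 b) < 1 := by
      rw [map_mul]
      have h9 : v (s : K) ≤ 1 := hvint v _ (isIntegral_natCast s)
      calc v (s : K) * v (d6 b) ≤ 1 * v (d6 b) :=
            mul_le_mul_of_nonneg_right h9 (apply_nonneg v _)
        _ = v (d6 b) := one_mul _
        _ < 1 := h6
    have hle : v (e7 j m b) ≤ 1 := by
      refine hvint v _ ?_
      rw [hbe, he1]
      exact (RingOfIntegers.isIntegral_coe E).map (algebraMap K₀ K).toIntAlgHom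
    rcases hle.lt_or_eq with h10 | h10
    · exfalso
      have h11 := (FinitePlace.add_le v (e7 j m b) ((s : K) * d6 b)).trans_lt (max_lt h10 h8)
      rw [h5] at h11
      exact lt_irrefl _ h11
    · exact h10
  obtain ⟨α, hα, P', hP'P, hsum, hP'⟩ := hPG K b P (fun v => v (d6 b) < 1 ∧ v (e7 j m b) = 1)
    hb0 hspl (fun p hp => by
      obtain ⟨v, h1, h2, h3⟩ := hpl p hp
      obtain ⟨α, h4, h5⟩ := hSI K v b j m (fun i => hvint v _ (hbint i)) h2 h3 hspl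
      exact ⟨v, α, h1, ⟨h2, h3⟩, h4, h5⟩)
  refine ⟨α, hα, ?_⟩
  intro Y hY x hx
  obtain ⟨S, hS1, hS2⟩ := hPL K P' (fun v => CubeFree v.val Y.f ∧ v (discr Y.f) < 1)
    (fun p hp => by
      obtain ⟨v, hv1, ⟨hv2, hv3⟩, hv4⟩ := hP' p hp
      refine ⟨hpr p (hP'P hp), v, hv1, ?_⟩
      rw [hY]
      exact hLO K v b α j m (fun i => hvint v _ (hbint i)) hv2 hv3 hα hv4)
  obtain ⟨hmon, hdeg5, hint⟩ := hOM K b α hbint hb0 hα
  rw [← hY] at hmon hdeg5 hint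
  have hlog : Real.log ((∏ p ∈ P, p : ℕ) : ℝ) = ∑ p ∈ P, Real.log p := by
    rw [Nat.cast_prod, Real.log_prod]
    intro p hp
    have := (hpr p hp).ne_zero
    exact_mod_cast this
  have hM1 : (1 : ℝ) < (M : ℝ) := by exact_mod_cast hM
  have hM0 : (0 : ℝ) < (M : ℝ) := by linarith
  have hlM : 0 < Real.log (M : ℝ) := Real.log_pos hM1
  have hineq : ε / (18 * (A + 1) * (d + 1)) * lH Y.f ≤
      ∑ v ∈ S, Real.log (Ideal.absNorm v.maximalIdeal.asIdeal) := by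
    have g1 : Real.log ((M : ℝ) ^ ε) ≤ Real.log ((∏ p ∈ P, p : ℕ) : ℝ) :=
      Real.log_le_log (Real.rpow_pos_of_pos hM0 ε) hrad
    rw [hlog, Real.log_rpow hM0] at g1
    have g2 : Real.log (4 * (M : ℝ)) ≤ 3 * Real.log (M : ℝ) := by
      have h4 : (4 : ℝ) * (M : ℝ) ≤ (M : ℝ) ^ 3 := by
        have h5 : (2 : ℝ) ≤ (M : ℝ) := by exact_mod_cast hM
        nlinarith [mul_pos hM0 hM0]
      have h6 := Real.log_le_log (by positivity : (0 : ℝ) < 4 * (M : ℝ)) h4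
      rw [Real.log_pow] at h6
      exact_mod_cast h6
    have g3 : lH Y.f ≤ (Module.finrank ℚ K : ℝ) * (A * Real.log (4 * M)) := by
      rw [hY]
      refine hA K b α M (by omega) ?_ hb0 hα
      intro φ i
      have := hcoef (φ.comp (algebraMap K₀ K)) i
      rw [hb]
      exact this
    have hfr' : (Module.finrank ℚ K : ℝ) ≤ d := by exact_mod_cast hfr
    have hA0 : (0 : ℝ) ≤ (A : ℝ) := Nat.cast_nonneg A
    have hd' : (0 : ℝ) ≤ (d : ℝ) := Nat.cast_nonneg d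
    have g4 : lH Y.f ≤ 3 * ((A + 1) * (d + 1)) * Real.log M := by
      have h7 : (A : ℝ) * Real.log (4 * M) ≤ A * (3 * Real.log M) :=
        mul_le_mul_of_nonneg_left g2 hA0
      have h8 : 0 ≤ (A : ℝ) * (3 * Real.log M) := by positivity
      have h9 : (Module.finrank ℚ K : ℝ) * (A * Real.log (4 * M)) ≤ d * (A * (3 * Real.log M)) :=
        (mul_le_mul_of_nonneg_left h7 (Nat.cast_nonneg _)).trans
          (mul_le_mul_of_nonneg_right hfr' h8)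
      have h10 : (d : ℝ) * (A * (3 * Real.log M)) ≤ 3 * ((A + 1) * (d + 1)) * Real.log M := by
        have h11 : (d : ℝ) * A ≤ (A + 1) * (d + 1) := by nlinarith
        have h12 := mul_le_mul_of_nonneg_right h11 (by positivity : 0 ≤ 3 * Real.log (M : ℝ))
        nlinarith
      linarith
    have g5 : ε / (18 * (A + 1) * (d + 1)) * lH Y.f ≤
        ε / (18 * (A + 1) * (d + 1)) * (3 * ((A + 1) * (d + 1)) * Real.log M) :=
      mul_le_mul_of_nonneg_left g4 (by positivity)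
    have g6 : ε / (18 * (A + 1) * (d + 1)) * (3 * ((A + 1) * (d + 1)) * Real.log M) =
        ε * Real.log M / 6 := by
      have : (A : ℝ) + 1 ≠ 0 := by positivity
      have : (d : ℝ) + 1 ≠ 0 := by positivity
      field_simp
      ring
    linarith
  rcases hB K hfr Y hmon hdeg5 hint S hS1 hineq x hx with h | h
  · exact h
  · exfalso
    apply hψ
    rw [hY] at h
    have hbsq : Squarefree (sext b) := by
      rw [hbs]
      exact (hsep.map (f := algebraMap K₀ K)).squarefree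
    let _ : Algebra K₀ ℂ := ψ.toAlgebra
    have _ : IsScalarTower ℚ K₀ K := IsScalarTower.of_algebraMap_eq' (Subsingleton.elim _ _)
    have _ : Algebra.IsAlgebraic K₀ K := Algebra.IsAlgebraic.tower_top (K := ℚ) K₀
    let φ : K →ₐ[K₀] ℂ := IsAlgClosed.lift
    have hφ : ∀ y : K₀, φ (algebraMap K₀ K y) = ψ y := fun y => φ.commutes y
    have h1 := hCV K B b α hb0 hbsq hα h φ.toRingHom
    have h2 : (sext b).map φ.toRingHom = sext fun i => ψ ((a i : 𝓞 K₀) : K₀) := by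
      rw [← (hNA K ℂ φ.toRingHom b).1]
      have h3 : (fun i => φ.toRingHom (b i)) = fun i => ψ ((a i : 𝓞 K₀) : K₀) := by
        funext i
        rw [hb]
        exact hφ _
      rw [h3]
    rw [h2] at h1
    exact h1

end Pool.Agent.COV.H40
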