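import Pool.Agent.Helper62_COV.MU9

/-!
# COV block D, uniform in the number field (MP_160b6c_nt): the theorem (adapted from helper62)
-/

set_option autoImplicit false

namespace Pool.Agent.COV.H40

open Polynomial NumberField Pool.Agent.TTC Pool.Agent.COV Pool.Agent.COV.H62

/-- MU9, uniform in the number field -/
theorem muu0 (h1 : TTC.Na6Stmt) (h2 : TTC.Na7Stmt) (h3 : Lr3Stmt)
    (h4 : ∀ D A n : ℕ, ∃ A' : ℕ, ∀ (K₀ : Type) [Field K₀] [NumberField K₀],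
      Fintype.card (K₀ →+* ℂ) ≤ D → ∀ G : MvPolynomial (Fin n) (𝓞 K₀), ∃ N : MvPolynomial (Fin n) ℤ,
      (∀ t : Fin n → ℤ, MvPolynomial.eval t N =
        Algebra.norm ℤ (MvPolynomial.eval (fun i => ((t i : ℤ) : 𝓞 K₀)) G)) ∧
      (∀ t : Fin n → ℂ, MvPolynomial.aeval t N = ∏ ψ : K₀ →+* ℂ,
        MvPolynomial.eval₂ (ψ.comp (algebraMap (𝓞 K₀) K₀)) t G) ∧
      ∀ H : ℕ, 1 ≤ H → Sz0 A ((A : ℝ) * (H : ℝ) ^ A) G → SzM A' H N)
    (h5 : SzaStmt) (h6 : Cr9Stmt)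
    (h7 : ∀ (d : ℕ) (ε : ℝ), 0 < ε → ∃ B : ℕ,
      ∀ (K₀ : Type) [Field K₀] [NumberField K₀] (a : Fin 7 → 𝓞 K₀) (M j m s : ℕ), 2 ≤ M →
      (∀ (ψ : K₀ →+* ℂ) (i : Fin 7), ‖ψ ((a i : 𝓞 K₀) : K₀)‖ ≤ M) → Algebra.norm ℤ (d6 a) ≠ 0 →
      (M : ℝ) ^ ε ≤ (rad2 (Algebra.norm ℤ (d6 a))
        (Algebra.norm ℤ (e7 j m a + (s : 𝓞 K₀) * d6 a)) : ℝ) →
      Good9 d B a) (n₀ d k m : ℕ) (δ : ℝ) (hδ : 0 < δ) :
    ∃ (B : ℕ) (C : ℝ), 0 < C ∧ ∀ (K₀ : Type) [Field K₀] [NumberField K₀],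
    Fintype.card (K₀ →+* ℂ) ≤ n₀ → ∀ (H : ℕ) (F : Fin 7 → MvPolynomial (Fin (m + 1)) (𝓞 K₀))
    (T : Fin (m + 1) → ℕ) (i₀ : Fin (m + 1)),
    (∀ i, 1 ≤ T i ∧ T i ≤ H ∧ T i₀ ≤ T i) → (∀ i, Sz0 k (H : ℝ) (F i)) → Nodal9 F →
    ({t : Fin (m + 1) → ℤ | (∀ i, |t i| ≤ (T i : ℤ)) ∧
        ¬ Good9 d B (fun i => MvPolynomial.eval (fun l => ((t l : ℤ) : 𝓞 K₀)) (F i))}.ncard : ℝ) *
      (T i₀ : ℝ) ≤ C * (H : ℝ) ^ δ * ∏ i, (T i : ℝ) := by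
  classical
  obtain ⟨PD, hPD⟩ : ∃ PD : MvPolynomial (Fin 7) ℤ,
    PD = d6 (fun i => (MvPolynomial.X i : MvPolynomial (Fin 7) ℤ)) := ⟨_, rfl⟩
  obtain ⟨PE, hPE⟩ : ∃ PE : ℕ → ℕ → ℕ → MvPolynomial (Fin 7) ℤ, ∀ j m' s, PE j m' s =
    e7 j m' (fun i => (MvPolynomial.X i : MvPolynomial (Fin 7) ℤ)) +
      (s : MvPolynomial (Fin 7) ℤ) * PD := ⟨_, fun _ _ _ => rfl⟩
  choose AF hAF using fun P => h5 P k (m + 1)
  obtain ⟨A, hAD, hAE⟩ : ∃ A : ℕ, AF PD ≤ A ∧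
      ∀ j ≤ n₀, ∀ m' ≤ 5 * n₀, ∀ s ≤ n₀, AF (PE j m' s) ≤ A := by
    refine ⟨AF PD + ∑ j ∈ Finset.range (n₀ + 1), ∑ m' ∈ Finset.range (5 * n₀ + 1),
      ∑ s ∈ Finset.range (n₀ + 1), AF (PE j m' s), Nat.le_add_right _ _, ?_⟩
    intro j hj m' hm' s hs
    refine le_trans ?_ (Nat.le_add_left _ _)
    have e1 := Finset.single_le_sum (f := fun s => AF (PE j m' s))
      (fun _ _ => Nat.zero_le _) (Finset.mem_range.mpr (Nat.lt_succ_of_le hs))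
    have e2 := Finset.single_le_sum (f := fun m' => ∑ s ∈ Finset.range (n₀ + 1), AF (PE j m' s))
      (fun _ _ => Nat.zero_le _) (Finset.mem_range.mpr (Nat.lt_succ_of_le hm'))
    have e3 := Finset.single_le_sum (f := fun j => ∑ m' ∈ Finset.range (5 * n₀ + 1),
      ∑ s ∈ Finset.range (n₀ + 1), AF (PE j m' s))
      (fun _ _ => Nat.zero_le _) (Finset.mem_range.mpr (Nat.lt_succ_of_le hj))
    exact e1.trans (e2.trans e3)
  obtain ⟨A', hA'0⟩ := h4 n₀ A (m + 1)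
  obtain ⟨ε, C, hε, hC, hlr⟩ := h3 A' m δ hδ
  have hk2 : (0 : ℝ) < (k : ℝ) + 2 := by positivity
  obtain ⟨B, hB0⟩ := h7 d (ε / ((k : ℝ) + 2)) (div_pos hε hk2)
  obtain ⟨H₀, hH₀⟩ : ∃ H₀ : ℕ, H₀ = (k + 1) ^ (m + 1) + 2 := ⟨_, rfl⟩
  refine ⟨B, C + 3 ^ (m + 1) * H₀, by positivity, ?_⟩
  intro K₀ _ _ hn₀ H F T i₀ hT hS hN
  obtain ⟨n, hn⟩ : ∃ n : ℕ, n = Fintype.card (K₀ →+* ℂ) := ⟨_, rfl⟩
  have hA' := hA'0 K₀ hn₀
  have hB := hB0 K₀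
  rw [← hn] at hn₀
  have hH : 1 ≤ H := (hT i₀).1.trans (hT i₀).2.1
  have hH1 : (1 : ℝ) ≤ (H : ℝ) := by exact_mod_cast hH
  have hHd : (1 : ℝ) ≤ (H : ℝ) ^ δ := Real.one_le_rpow hH1 hδ.le
  have hT0 : (0 : ℝ) ≤ (T i₀ : ℝ) := Nat.cast_nonneg _
  have hPr0 : (0 : ℝ) ≤ ∏ i, (T i : ℝ) := Finset.prod_nonneg fun _ _ => Nat.cast_nonneg _
  obtain ⟨Bad, hBad⟩ : ∃ Bad : Set (Fin (m + 1) → ℤ), Bad =
      {t : Fin (m + 1) → ℤ | (∀ i, |t i| ≤ (T i : ℤ)) ∧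
        ¬ Good9 d B (fun i => MvPolynomial.eval (fun l => ((t l : ℤ) : 𝓞 K₀)) (F i))} := ⟨_, rfl⟩
  rw [← hBad]
  rcases lt_or_ge H H₀ with hlt | hge
  · -- small H
    have e1 := (box_card T (fun i => (hT i).1) Bad (fun t ht => by rw [hBad] at ht; exact ht.1)).2
    have e2 : (T i₀ : ℝ) ≤ (H₀ : ℝ) := by exact_mod_cast (hT i₀).2.1.trans hlt.le
    have e3 : (Bad.ncard : ℝ) * (T i₀ : ℝ) ≤ (3 ^ (m + 1) * ∏ i, (T i : ℝ)) * (H₀ : ℝ) :=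
      mul_le_mul e1 e2 hT0 (by positivity)
    have e4 : (3 ^ (m + 1) * ∏ i, (T i : ℝ)) * (H₀ : ℝ) ≤
        (3 ^ (m + 1) * ∏ i, (T i : ℝ)) * (H₀ : ℝ) * (H : ℝ) ^ δ :=
      le_mul_of_one_le_right (by positivity) hHd
    have e5 : 0 ≤ C * (H : ℝ) ^ δ * ∏ i, (T i : ℝ) := by positivity
    have e6 : (C + 3 ^ (m + 1) * (H₀ : ℝ)) * (H : ℝ) ^ δ * ∏ i, (T i : ℝ) =
        C * (H : ℝ) ^ δ * ∏ i, (T i : ℝ) +
        (3 ^ (m + 1) * ∏ i, (T i : ℝ)) * (H₀ : ℝ) * (H : ℝ) ^ δ := by ring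
    rw [e6]
    linarith
  · obtain ⟨hN1, t₀, hN2, ψ₀, hN3⟩ := hN
    -- compatibility
    have cd : ∀ (R : Type) [CommRing R] (φ : MvPolynomial (Fin (m + 1)) (𝓞 K₀) →+* R),
        d6 (fun i => φ (F i)) = φ (d6 F) := fun R _ φ => (h1 _ _ φ F).2.1
    have ce : ∀ (R : Type) [CommRing R] (φ : MvPolynomial (Fin (m + 1)) (𝓞 K₀) →+* R) (j m' : ℕ),
        e7 j m' (fun i => φ (F i)) = φ (e7 j m' F) := fun R _ φ j m' => h2 _ _ φ F j m'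
    have fd : ∀ (ψ : K₀ →+* ℂ) (t : Fin (m + 1) → ℂ), d6 (fib9 F ψ t) =
        MvPolynomial.eval₂ (ψ.comp (algebraMap (𝓞 K₀) K₀)) t (d6 F) := by
      intro ψ t
      have h := cd ℂ (MvPolynomial.eval₂Hom (ψ.comp (algebraMap (𝓞 K₀) K₀)) t)
      have hf : fib9 F ψ t = fun i =>
        MvPolynomial.eval₂Hom (ψ.comp (algebraMap (𝓞 K₀) K₀)) t (F i) := rfl
      rw [hf, h, MvPolynomial.coe_eval₂Hom]
    have fe : ∀ (ψ : K₀ →+* ℂ) (t : Fin (m + 1) → ℂ) (j m' : ℕ), e7 j m' (fib9 F ψ t) =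
        MvPolynomial.eval₂ (ψ.comp (algebraMap (𝓞 K₀) K₀)) t (e7 j m' F) := by
      intro ψ t j m'
      have h := ce ℂ (MvPolynomial.eval₂Hom (ψ.comp (algebraMap (𝓞 K₀) K₀)) t) j m'
      have hf : fib9 F ψ t = fun i =>
        MvPolynomial.eval₂Hom (ψ.comp (algebraMap (𝓞 K₀) K₀)) t (F i) := rfl
      rw [hf, h, MvPolynomial.coe_eval₂Hom]
    -- CR9
    obtain ⟨eq⟩ : Nonempty (Fin n ≃ (K₀ →+* ℂ)) := by
      rw [hn]
      exact ⟨(Fintype.equivFin _).symm⟩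
    obtain ⟨j, hj, m', hm', s, hs, hjms⟩ := h6 n (fun i => fib9 F (eq i) t₀) (fun i => hN2 (eq i))
    obtain ⟨G, hG⟩ : ∃ G : MvPolynomial (Fin (m + 1)) (𝓞 K₀),
      G = e7 j m' F + (s : MvPolynomial (Fin (m + 1)) (𝓞 K₀)) * d6 F := ⟨_, rfl⟩
    have ae1 : MvPolynomial.aeval F PD = d6 F := by
      have h := (h1 _ _ ((MvPolynomial.aeval F :
        MvPolynomial (Fin 7) ℤ →ₐ[ℤ] MvPolynomial (Fin (m + 1)) (𝓞 K₀)) :
          MvPolynomial (Fin 7) ℤ →+* MvPolynomial (Fin (m + 1)) (𝓞 K₀))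
        (fun i => (MvPolynomial.X i : MvPolynomial (Fin 7) ℤ))).2.1
      rw [← hPD] at h
      simp only [RingHom.coe_coe, MvPolynomial.aeval_X] at h
      exact h.symm
    have ae2 : MvPolynomial.aeval F (PE j m' s) = G := by
      have h := h2 _ _ ((MvPolynomial.aeval F :
        MvPolynomial (Fin 7) ℤ →ₐ[ℤ] MvPolynomial (Fin (m + 1)) (𝓞 K₀)) :
          MvPolynomial (Fin 7) ℤ →+* MvPolynomial (Fin (m + 1)) (𝓞 K₀))
        (fun i => (MvPolynomial.X i : MvPolynomial (Fin 7) ℤ)) j m'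
      simp only [RingHom.coe_coe, MvPolynomial.aeval_X] at h
      rw [hPE, map_add, map_mul, map_natCast, ae1, ← h, hG]
    have sD : Sz0 A ((A : ℝ) * (H : ℝ) ^ A) (d6 F) := by
      rw [← ae1]
      exact sz0_mono (hAF PD K₀ F H hH hS) hAD (bnd_mono hH hAD)
    have sE : Sz0 A ((A : ℝ) * (H : ℝ) ^ A) G := by
      rw [← ae2]
      exact sz0_mono (hAF (PE j m' s) K₀ F H hH hS) (hAE j (hj.trans hn₀) m' (hm'.trans (Nat.mul_le_mul le_rfl hn₀)) s (hs.trans hn₀))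
        (bnd_mono hH (hAE j (hj.trans hn₀) m' (hm'.trans (Nat.mul_le_mul le_rfl hn₀)) s (hs.trans hn₀)))
    obtain ⟨D, hD1, hD2, hD3⟩ := hA' (d6 F)
    obtain ⟨E, hE1, hE2, hE3⟩ := hA' G
    have hD0 : D ≠ 0 := by
      intro hD
      obtain ⟨ψ₁, t₁, hψ⟩ := hN1
      have q1 : ∏ ψ : K₀ →+* ℂ, MvPolynomial.map (ψ.comp (algebraMap (𝓞 K₀) K₀)) (d6 F) = 0 := by
        refine MvPolynomial.funext fun t => ?_
        rw [map_prod, map_zero]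
        have q2 := hD2 t
        rw [hD, map_zero] at q2
        rw [q2]
        refine Finset.prod_congr rfl fun ψ _ => ?_
        rw [MvPolynomial.eval_map]
      obtain ⟨ψ, _, q3⟩ := Finset.prod_eq_zero_iff.mp q1
      have q4 : Function.Injective (ψ.comp (algebraMap (𝓞 K₀) K₀)) :=
        ψ.injective.comp NumberField.RingOfIntegers.coe_injective
      have q5 : d6 F = 0 := MvPolynomial.map_injective _ q4 (by rw [q3, map_zero])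
      apply hψ
      rw [fd, q5, MvPolynomial.eval₂_zero]
    have hDt : MvPolynomial.aeval t₀ D = 0 := by
      rw [hD2 t₀]
      refine Finset.prod_eq_zero (Finset.mem_univ ψ₀) ?_
      rw [← fd, hN3]
    have hEt : MvPolynomial.aeval t₀ E ≠ 0 := by
      rw [hE2 t₀, Finset.prod_ne_zero_iff]
      intro ψ _
      rw [hG, MvPolynomial.eval₂_add, MvPolynomial.eval₂_mul, ← fd, ← fe]
      have q1 : MvPolynomial.eval₂ (ψ.comp (algebraMap (𝓞 K₀) K₀)) t₀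
          (s : MvPolynomial (Fin (m + 1)) (𝓞 K₀)) = (s : ℂ) :=
        map_natCast (MvPolynomial.eval₂Hom (ψ.comp (algebraMap (𝓞 K₀) K₀)) t₀) s
      rw [q1]
      have q2 := hjms (eq.symm ψ)
      simp only [Equiv.apply_symm_apply] at q2
      exact q2
    have hfin := hlr H D E T i₀ hT (hD3 H hH sD) (hE3 H hH sE) hD0 ⟨t₀, hDt, hEt⟩
    obtain ⟨Bad2, hBad2⟩ : ∃ Bad2 : Set (Fin (m + 1) → ℤ), Bad2 =
      {t : Fin (m + 1) → ℤ | (∀ i, |t i| ≤ (T i : ℤ)) ∧ (MvPolynomial.eval t D = 0 ∨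
      (rad2 (MvPolynomial.eval t D) (MvPolynomial.eval t E) : ℝ) < (H : ℝ) ^ ε)} := ⟨_, rfl⟩
    rw [← hBad2] at hfin
    have hsub : Bad ⊆ Bad2 := by
      intro t ht
      rw [hBad] at ht
      obtain ⟨ht1, ht2⟩ := ht
      rw [hBad2]
      refine ⟨ht1, ?_⟩
      by_contra hcon
      rw [not_or, not_lt] at hcon
      obtain ⟨hc1, hc2⟩ := hcon
      apply ht2
      have ev1 : MvPolynomial.eval (fun l => ((t l : ℤ) : 𝓞 K₀)) (d6 F) =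
          d6 (fun i => MvPolynomial.eval (fun l => ((t l : ℤ) : 𝓞 K₀)) (F i)) :=
        (cd (𝓞 K₀) (MvPolynomial.eval (fun l => ((t l : ℤ) : 𝓞 K₀)))).symm
      have ev2 : MvPolynomial.eval (fun l => ((t l : ℤ) : 𝓞 K₀)) G =
          e7 j m' (fun i => MvPolynomial.eval (fun l => ((t l : ℤ) : 𝓞 K₀)) (F i)) +
          (s : 𝓞 K₀) * d6 (fun i => MvPolynomial.eval (fun l => ((t l : ℤ) : 𝓞 K₀)) (F i)) := by
        rw [hG, map_add, map_mul, map_natCast, ev1,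
          ← ce (𝓞 K₀) (MvPolynomial.eval (fun l => ((t l : ℤ) : 𝓞 K₀)))]
      rw [hD1, ev1] at hc1
      rw [hD1, hE1, ev1, ev2] at hc2
      obtain ⟨M, hM⟩ : ∃ M : ℕ, M = (k + 1) ^ (m + 1) * H ^ (k + 1) + 1 := ⟨_, rfl⟩
      have hHk : 1 ≤ H ^ (k + 1) := Nat.one_le_pow _ _ hH
      have hM2 : 2 ≤ M := by
        have : 1 ≤ (k + 1) ^ (m + 1) := Nat.one_le_pow _ _ (Nat.succ_pos k)
        have := Nat.mul_le_mul this hHk
        omega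
      have hM3 : M ≤ H ^ (k + 2) := by
        have r1 : (k + 1) ^ (m + 1) + 2 ≤ H := hH₀ ▸ hge
        have r2 : ((k + 1) ^ (m + 1) + 2) * H ^ (k + 1) ≤ H * H ^ (k + 1) :=
          Nat.mul_le_mul_right _ r1
        have r3 : H ^ (k + 2) = H * H ^ (k + 1) := by ring
        rw [r3, hM]
        refine le_trans ?_ r2
        rw [Nat.add_mul]
        omega
      refine hB _ M j m' s hM2 ?_ hc1 ?_
      · intro ψ i
        have htH : ∀ i, |t i| ≤ (H : ℤ) := fun i =>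
          (ht1 i).trans (by exact_mod_cast (hT i).2.1)
        refine (val_bound hH (F i) (hS i) t htH ψ).trans ?_
        rw [hM]
        push_cast
        linarith
      · refine le_trans ?_ hc2
        have r1 : (M : ℝ) ≤ (H : ℝ) ^ ((k : ℝ) + 2) := by
          have r2 : (H : ℝ) ^ ((k : ℝ) + 2) = (H : ℝ) ^ (k + 2) := by
            rw [← Real.rpow_natCast]
            push_cast
            rfl
          rw [r2]
          exact_mod_cast hM3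
        calc (M : ℝ) ^ (ε / ((k : ℝ) + 2)) ≤ ((H : ℝ) ^ ((k : ℝ) + 2)) ^ (ε / ((k : ℝ) + 2)) :=
              Real.rpow_le_rpow (Nat.cast_nonneg _) r1 (div_pos hε hk2).le
          _ = (H : ℝ) ^ ε := by
              rw [← Real.rpow_mul (by positivity), mul_div_cancel₀ _ hk2.ne']
    have hB2fin : Bad2.Finite :=
      (box_card T (fun i => (hT i).1) Bad2 (fun t ht => by rw [hBad2] at ht; exact ht.1)).1
    have hcard : (Bad.ncard : ℝ) ≤ (Bad2.ncard : ℝ) := by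
      exact_mod_cast Set.ncard_le_ncard hsub hB2fin
    have f1 : (Bad.ncard : ℝ) * (T i₀ : ℝ) ≤ (Bad2.ncard : ℝ) * (T i₀ : ℝ) :=
      mul_le_mul_of_nonneg_right hcard hT0
    have f2 : 0 ≤ 3 ^ (m + 1) * (H₀ : ℝ) * (H : ℝ) ^ δ * ∏ i, (T i : ℝ) := by positivity
    have f3 : (C + 3 ^ (m + 1) * (H₀ : ℝ)) * (H : ℝ) ^ δ * ∏ i, (T i : ℝ) =
        C * (H : ℝ) ^ δ * ∏ i, (T i : ℝ) +
        3 ^ (m + 1) * (H₀ : ℝ) * (H : ℝ) ^ δ * ∏ i, (T i : ℝ) := by ring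
    rw [f3]
    linarith

end Pool.Agent.COV.H40
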