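import Pool.Agent.Helper11_COV.NPL

/-!
COV block D, uniform in the number field (MP_160b6c_nt): norm polynomials (adapted from helper11).
-/

set_option autoImplicit false

namespace Pool.Agent.COV.H40

open MvPolynomial NumberField Pool.Agent.COV.H11

noncomputable section

/-- NPL, uniform in the number field. -/
theorem npu (D A n : ℕ) : ∃ A' : ℕ, ∀ (K₀ : Type) [Field K₀] [NumberField K₀],
    Fintype.card (K₀ →+* ℂ) ≤ D → ∀ G : MvPolynomial (Fin n) (𝓞 K₀), ∃ N : MvPolynomial (Fin n) ℤ,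
    (∀ t : Fin n → ℤ, MvPolynomial.eval t N =
      Algebra.norm ℤ (MvPolynomial.eval (fun i => ((t i : ℤ) : 𝓞 K₀)) G)) ∧
    (∀ t : Fin n → ℂ, MvPolynomial.aeval t N = ∏ ψ : K₀ →+* ℂ,
      MvPolynomial.eval₂ (ψ.comp (algebraMap (𝓞 K₀) K₀)) t G) ∧
    ∀ H : ℕ, 1 ≤ H → Sz0 A ((A : ℝ) * (H : ℝ) ^ A) G → SzM A' H N := by
  refine ⟨((A + 1) ^ n * A + 1) ^ D + A * D, fun K₀ _ _ hD G =>
    ⟨npol G, npol_eval G, npol_aeval G, ?_⟩⟩
  set d := Fintype.card (K₀ →+* ℂ) with hd
  intro H hH hG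
  suffices h0 : SzM (((A + 1) ^ n * A) ^ d + A * d) H (npol G) by
    have hle : ((A + 1) ^ n * A) ^ d + A * d ≤ ((A + 1) ^ n * A + 1) ^ D + A * D := by
      refine Nat.add_le_add ?_ (Nat.mul_le_mul le_rfl hD)
      exact (Nat.pow_le_pow_left (Nat.le_succ _) d).trans
        (Nat.pow_le_pow_right (Nat.succ_pos _) hD)
    refine ⟨h0.1.trans hle, fun l => (h0.2 l).trans ?_⟩
    have hH' : (1 : ℤ) ≤ (H : ℤ) := by exact_mod_cast hH
    exact mul_le_mul (by exact_mod_cast hle) (pow_le_pow_right₀ hH' hle) (by positivity)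
      (by positivity)
  obtain ⟨hG1, hG2⟩ := hG
  have hinj : Function.Injective (Int.castRingHom ℂ) := Int.cast_injective
  have hsup : ∀ ψ : K₀ →+* ℂ,
      (MvPolynomial.map (ψ.comp (algebraMap (𝓞 K₀) K₀)) G).totalDegree ≤ A := fun ψ => by
    refine le_trans ?_ hG1
    exact Finset.sup_mono (MvPolynomial.support_map_subset _ _)
  constructor
  · have h1 : (npol G).totalDegree = (MvPolynomial.map (Int.castRingHom ℂ) (npol G)).totalDegree := by
      unfold MvPolynomial.totalDegree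
      rw [MvPolynomial.support_map_of_injective _ hinj]
    rw [h1, npol_map]
    refine (MvPolynomial.totalDegree_finsetProd _ _).trans ?_
    refine (Finset.sum_le_sum fun ψ _ => hsup ψ).trans ?_
    rw [Finset.sum_const, Finset.card_univ, ← hd, smul_eq_mul, mul_comm]
    exact Nat.le_add_left _ _
  · intro l
    have h1 : ‖((MvPolynomial.map (Int.castRingHom ℂ) (npol G)).coeff l)‖ ≤
        (((A + 1) ^ n : ℕ) * ((A : ℝ) * (H : ℝ) ^ A)) ^ d := by
      rw [npol_map]
      have := coeff_prod_bound Finset.univ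
        (fun ψ : K₀ →+* ℂ => MvPolynomial.map (ψ.comp (algebraMap (𝓞 K₀) K₀)) G) ((A + 1) ^ n)
        ((A : ℝ) * (H : ℝ) ^ A) (by positivity) (fun ψ _ => supp_card _ A (hsup ψ))
        (fun ψ _ l => by
          rw [MvPolynomial.coeff_map]
          exact hG2 ψ l) l
      rwa [Finset.card_univ, ← hd] at this
    rw [MvPolynomial.coeff_map] at h1
    have h2 : ‖(Int.castRingHom ℂ) ((npol G).coeff l)‖ = ((|(npol G).coeff l| : ℤ) : ℝ) := by
      rw [eq_intCast, Complex.norm_intCast, Int.cast_abs]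
    rw [h2] at h1
    have h3 : (|(npol G).coeff l| : ℤ) ≤ (((A + 1) ^ n : ℕ) * ((A : ℤ) * (H : ℤ) ^ A)) ^ d := by
      exact_mod_cast h1
    refine h3.trans ?_
    have h4 : ((((A + 1) ^ n : ℕ) : ℤ) * ((A : ℤ) * (H : ℤ) ^ A)) ^ d =
        (((((A + 1) ^ n * A) ^ d : ℕ)) : ℤ) * (H : ℤ) ^ (A * d) := by
      push_cast
      rw [← mul_assoc, mul_pow, ← pow_mul]
    rw [h4]
    have hH' : (1 : ℤ) ≤ (H : ℤ) := by exact_mod_cast hH
    refine mul_le_mul ?_ (pow_le_pow_right₀ hH' (Nat.le_add_left _ _)) (by positivity) (by positivity)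
    exact_mod_cast Nat.le_add_right _ _

end

end Pool.Agent.COV.H40
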