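import Pool.Agent.Helper40_COV.Final7
import Pool.Agent.Helper40_COV.NPU
import Pool.Agent.Helper40_COV.GDU
import Pool.Agent.Helper40_COV.MUU
import Pool.Agent.Helper40_COV.GBU

set_option autoImplicit false

/-! Squad COV: assembly of block D, uniform in the number field (MP_160b6c_nt). -/

namespace Pool.Agent.COV.H40

open Polynomial NumberField Pool.Agent.TTC

theorem gdu (d : ℕ) (ε : ℝ) (hε : 0 < ε) : ∃ B : ℕ,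
    ∀ (K₀ : Type) [Field K₀] [NumberField K₀] (a : Fin 7 → 𝓞 K₀) (M j m s : ℕ), 2 ≤ M →
    (∀ (ψ : K₀ →+* ℂ) (i : Fin 7), ‖ψ ((a i : 𝓞 K₀) : K₀)‖ ≤ M) → Algebra.norm ℤ (d6 a) ≠ 0 →
    (M : ℝ) ^ ε ≤ (rad2 (Algebra.norm ℤ (d6 a))
      (Algebra.norm ℤ (e7 j m a + (s : 𝓞 K₀) * d6 a)) : ℝ) →
    Good9 d B a :=
  gdu0 TTC.H40.na6 TTC.H40.na7 TTC.H40.cr6 kdc H35.exv
    (H14.si9 TTC.H40.na6 TTC.H40.na7 TTC.H40.cr7)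
    (H1.lo9 TTC.H40.na6 TTC.H40.na7 TTC.H40.cr7 TTC.H88.om7) H5.om9 (H27H.ht9 TTC.H40.na6)
    pg9 TTC.H81.pl6 (H73.cv9 H53.cvm H66.cvs) d ε hε

theorem muu (n₀ d k m : ℕ) (δ : ℝ) (hδ : 0 < δ) :
    ∃ (B : ℕ) (C : ℝ), 0 < C ∧ ∀ (K₀ : Type) [Field K₀] [NumberField K₀],
    Fintype.card (K₀ →+* ℂ) ≤ n₀ → ∀ (H : ℕ) (F : Fin 7 → MvPolynomial (Fin (m + 1)) (𝓞 K₀))
    (T : Fin (m + 1) → ℕ) (i₀ : Fin (m + 1)),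
    (∀ i, 1 ≤ T i ∧ T i ≤ H ∧ T i₀ ≤ T i) → (∀ i, Sz0 k (H : ℝ) (F i)) → Nodal9 F →
    ({t : Fin (m + 1) → ℤ | (∀ i, |t i| ≤ (T i : ℤ)) ∧
        ¬ Good9 d B (fun i => MvPolynomial.eval (fun l => ((t l : ℤ) : 𝓞 K₀)) (F i))}.ncard : ℝ) *
      (T i₀ : ℝ) ≤ C * (H : ℝ) ^ δ * ∏ i, (T i : ℝ) :=
  muu0 TTC.H40.na6 TTC.H40.na7 lr3 npu H50.sza H81Cr9.cr9 gdu n₀ d k m δ hδ

theorem gbu (n k m : ℕ) : ∃ M : ℕ,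
    ∀ (K₀ : Type) [Field K₀] [NumberField K₀]
    (F : Fin 7 → MvPolynomial (Fin (m + 1)) (𝓞 K₀)) (T : Fin (m + 1) → ℕ) (i₀ : Fin (m + 1))
    (ψ : K₀ →+* ℂ), (∀ i, 1 ≤ T i ∧ T i₀ ≤ T i) → (∀ i, (F i).totalDegree ≤ k) →
    AlgebraicIndependent ℤ F →
    {t : Fin (m + 1) → ℤ | (∀ i, |t i| ≤ (T i : ℤ)) ∧ Cov n (TTC.sext fun i =>
      ψ ((MvPolynomial.eval (fun l => ((t l : ℤ) : 𝓞 K₀)) (F i) : 𝓞 K₀) : K₀))}.ncard * T i₀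
      ≤ M * ∏ i, T i :=
  gbu0 (H91.gel gnc) TTC.H40.szb n k m

end Pool.Agent.COV.H40
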