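import Pool.Agent.Helper40_TTC.Final5
import Pool.Agent.Helper53_COV.AR1
import Pool.Agent.Helper10_COV.AR2
import Pool.Agent.Helper92_COV.AR3
import Pool.Agent.Helper52_COV.AR4
import Pool.Agent.Helper27_COV.ALG
import Pool.Agent.Helper72_COV.GPD
import Pool.Agent.Helper60_COV.GCP
import Pool.Agent.Helper72_COV.GWR
import Pool.Agent.Helper88_COV.GID
import Pool.Agent.Helper23_COV.GPO
import Pool.Agent.Helper24_COV.GDI
import Pool.Agent.Helper46_COV.GDR
import Pool.Agent.Helper72_COV.GSQ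
import Pool.Agent.Helper15_COV.GNC
import Pool.Agent.Helper91_COV.GEL
import Pool.Agent.Helper34_COV.GBX

set_option autoImplicit false

/-! Squad COV: assembly of blocks A and G (MP_160b6c_nt). -/

namespace Pool.Agent.COV.H40

theorem alg : AlgStmt := H27.alg H53.ar1 H10.ar2 H92.ar3 H52.ar4

theorem gnc : GncStmt :=
  H15.gnc H72.gpd H60.gcp H72.gwr (H88.gid H72.gpd) H23.gpo H24.gdi H46.gdr
    (H72.gsq TTC.H40.na6 TTC.H40.cr6)

theorem gbx : GbxStmt := H34.gbx (H91.gel gnc) TTC.H40.szb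

end Pool.Agent.COV.H40
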